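import Mathlib
import Pool.Agent.Helper12.SketchSep

namespace Pool.Agent.Results.MP_ed2356_lc.NotEquivalent

open Pool.Agent.Helper12.SketchSep

/-- **Result.** The conjectured equivalence `R^lin(f) = Θ~(R^→(f⁺))` is false, with a polynomial
gap. (1) For every `N ≥ 3` there is a Boolean function `f` on `n = N + C(N,3)` bits such that the
XOR function `f⁺` has a public-coin one-way protocol with `5N + 4` bits, while every randomized
linear sketch of `f` over `𝔽₂` has dimension at least `(N-1)(N-2)/18`.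
(2) Consequently no absolute constant `C > 0` satisfies the two inequalities of Q1. -/
theorem result :
    (∀ N : ℕ, 3 ≤ N → ∃ f : (Fin (N + N.choose 3) → ZMod 2) → Bool,
      HasOneWay (xorFn f) (5 * N + 4) ∧
      ∀ k, HasSketch f k → (N - 1) * (N - 2) ≤ 18 * k) ∧
    ¬ ∃ C : ℝ, 0 < C ∧ ∀ n : ℕ, 1 ≤ n → ∀ f : (Fin n → ZMod 2) → Bool,
      (Rone (xorFn f) : ℝ) / (C * (1 + Real.logb 2 n) ^ C) ≤ Rlin f ∧
        (Rlin f : ℝ) ≤ C * (1 + Real.logb 2 n) ^ C * Rone (xorFn f) :=
  ⟨separation, not_equiv⟩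

end Pool.Agent.Results.MP_ed2356_lc.NotEquivalent
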