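import Pool.Agent.Helper437.Sk.Main

/-! Randomized `𝔽₂`-linear sketches and one-way communication of XOR functions:
`R^lin(f) = Θ̃(R^→(f^+))` is false. -/

namespace Pool.Agent.Results.MP_ed2356_lc.SketchGap

open Pool.Agent.Helper437.Sk

theorem result :
    ∀ C : ℝ, 0 < C → ∃ (n : ℕ) (f : (Fin n → ZMod 2) → Bool), 1 ≤ n ∧
      C * (1 + Real.logb 2 (n : ℝ)) ^ C * (Rone (xorFun f) : ℝ) < (Rlin f : ℝ) := by
  intro C hC
  obtain ⟨n, f, hn, h⟩ := main_core C hC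
  refine ⟨n, f, by omega, lt_of_le_of_lt ?_ h⟩
  have h1 : (1 : ℝ) ≤ (n : ℝ) := by exact_mod_cast (by omega : 1 ≤ n)
  have h2 : 0 ≤ Real.logb 2 (n : ℝ) := Real.logb_nonneg (by norm_num) h1
  have h3 : 0 ≤ C * (1 + Real.logb 2 (n : ℝ)) ^ C :=
    mul_nonneg hC.le (Real.rpow_nonneg (by linarith) _)
  nlinarith

end Pool.Agent.Results.MP_ed2356_lc.SketchGap
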